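import Pool.Agent.helper46.PV.W1
/-! PV project (MP_c0bc55_al, S02951), block W: `SameD` is decidable (for all data). -/
set_option autoImplicit false
namespace Pool.Agent.helper46.PV
open Pool.Agent.helper50.BW (W Fd Triv)
open Pool.Agent.helper4.PV (BB wl Ltr Par Wt Nd Geo)
open Pool.Agent.helper47.PV
open Pool.Agent.helper24.PV

variable {d : ℕ} {P : Par} {T : RM}

theorem prim_isConj (G : Geo d P) (hT : PrimrecPred fun w : W => Triv d w) :
    PrimrecRel fun u v : W => IsConj (wl d u) (wl d v) := by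
  obtain ⟨s, h1, h2, h3⟩ := exists_conjW G hT
  have h : PrimrecPred fun x : W × W => (s x).isSome = true :=
    Primrec.eq.comp (Primrec.option_isSome.comp h1) (Primrec.const true)
  refine h.of_eq ?_
  rintro ⟨u, v⟩
  constructor
  · intro h4
    obtain ⟨t, ht⟩ := Option.isSome_iff_exists.1 h4
    exact isConj_iff.2 ⟨_, (h2 u v t ht).1⟩
  · intro h4
    rw [Option.isSome_iff_ne_none]
    intro h5
    exact h3 u v h5 h4

theorem prim_simC (hd : 0 < d) (G : Geo d P) (hT : PrimrecPred fun w : W => Triv d w) :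
    PrimrecRel fun l l' : List W => ∃ g : BB d, SimC d g l l' := by
  obtain ⟨s, h1, h2, h3⟩ := exists_simC G hd hT
  have h : PrimrecPred fun x : List W × List W => (s x).isSome = true :=
    Primrec.eq.comp (Primrec.option_isSome.comp h1) (Primrec.const true)
  refine h.of_eq ?_
  rintro ⟨l, l'⟩
  constructor
  · intro h4
    obtain ⟨t, ht⟩ := Option.isSome_iff_exists.1 h4
    exact ⟨_, (h2 l l' t ht).1⟩
  · rintro ⟨g, hg⟩
    rw [Option.isSome_iff_ne_none]
    intro h5
    exact h3 l l' h5 g hg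

/-- the same multisets of names -/
theorem prim_perm (hd : 0 < d) : PrimrecRel fun l l' : List W =>
    (l'.map fun y => abG (wl d y)).Perm (l.map fun y => abG (wl d y)) := by
  classical
  have h0 : PrimrecRel fun (z y : W) => abG (wl d z) = abG (wl d y) := prim_abEq hd
  have h1 : Primrec₂ fun (l : List W) (y : W) =>
      (l.filter fun z => decide (abG (wl d z) = abG (wl d y))).length :=
    Primrec.list_length.comp h0.listFilter
  have h2 : PrimrecRel fun (x : List W × List W) (y : W) =>
      (x.1.filter fun z => decide (abG (wl d z) = abG (wl d y))).length =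
      (x.2.filter fun z => decide (abG (wl d z) = abG (wl d y))).length :=
    Primrec.eq.comp (h1.comp (Primrec.fst.comp Primrec.fst) Primrec.snd)
      (h1.comp (Primrec.snd.comp Primrec.fst) Primrec.snd)
  refine (primrecPred_forall_mem h2 (f := fun x => x.1 ++ x.2)
    (Primrec.list_append.comp Primrec.fst Primrec.snd)).of_eq ?_
  rintro ⟨l, l'⟩
  dsimp only
  have key : ∀ (m : List W) (y : W), (m.map fun y => abG (wl d y)).count (abG (wl d y)) =
      (m.filter fun z => decide (abG (wl d z) = abG (wl d y))).length := by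
    intro m y
    induction m with
    | nil => rfl
    | cons w m ih =>
      rw [List.map_cons, List.count_cons, ih, List.filter_cons]
      by_cases hw : abG (wl d w) = abG (wl d y)
      · simp [hw]
      · simp [hw]
  rw [List.perm_iff_count]
  constructor
  · intro h a
    by_cases ha : ∃ y ∈ l ++ l', abG (wl d y) = a
    · obtain ⟨y, hy, rfl⟩ := ha
      rw [key, key]
      exact (h y hy).symm
    · push Not at ha
      rw [List.count_eq_zero.2, List.count_eq_zero.2]
      · rintro hm
        obtain ⟨y, hy, hy'⟩ := List.mem_map.1 hm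
        exact ha y (List.mem_append_left _ hy) hy'
      · rintro hm
        obtain ⟨y, hy, hy'⟩ := List.mem_map.1 hm
        exact ha y (List.mem_append_right _ hy) hy'
  · intro h y _
    rw [← key, ← key]
    exact (h _).symm

/-- `SameD` is decidable -/
theorem sameD_prim (G : Geo d P) (hd : d.Prime) (hT : PrimrecPred fun w : W => Triv d w) :
    PrimrecRel (SameD d) := by
  -- kind 0
  have h0 : PrimrecPred fun x : Dt × Dt => ∃ (g : BB d) (k : ℕ),
      wl d x.2.a = g * wl d x.1.a ^ k * g⁻¹ := by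
    have h1 : PrimrecRel fun (x : Dt × Dt) (k : ℕ) => IsConj (wl d (npw x.1.a k)) (wl d x.2.a) :=
      (prim_isConj G hT).comp (prim_npw.comp (prim_a.comp (Primrec.fst.comp Primrec.fst))
        Primrec.snd) (prim_a.comp (Primrec.snd.comp Primrec.fst))
    refine (primrecPred_exists_mem h1 (f := fun _ => List.range d) (Primrec.const _)).of_eq
      fun x => ?_
    constructor
    · rintro ⟨k, -, hk⟩
      obtain ⟨g, hg⟩ := isConj_iff.1 hk
      exact ⟨g, k, by rw [← wl_npw, hg]⟩
    · rintro ⟨g, k, hg⟩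
      refine ⟨k % d, List.mem_range.2 (Nat.mod_lt _ hd.pos), isConj_iff.2 ⟨g, ?_⟩⟩
      rw [wl_npw, hg]
      congr 2
      conv_rhs => rw [← Nat.mod_add_div k d, pow_add, pow_mul, pow_d, one_pow, mul_one]
  have hk : ∀ i : ℕ, PrimrecPred fun x : Dt × Dt => x.1.kind = i := fun i =>
    Primrec.eq.comp (prim_kind.comp Primrec.fst) (Primrec.const i)
  have hk' : ∀ i : ℕ, PrimrecPred fun x : Dt × Dt => x.2.kind = i := fun i =>
    Primrec.eq.comp (prim_kind.comp Primrec.snd) (Primrec.const i)
  have hkk : PrimrecPred fun x : Dt × Dt => x.2.kind = x.1.kind :=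
    Primrec.eq.comp (prim_kind.comp Primrec.snd) (prim_kind.comp Primrec.fst)
  -- lists of words
  have hl : ∀ {f1 f2 f3 : Dt → W} {F : Dt → List W} (_ : Primrec f1) (_ : Primrec f2)
      (_ : Primrec f3) (_ : Primrec F), PrimrecPred fun x : Dt × Dt =>
        ∃ g : BB d, SimC d g (f1 x.1 :: f2 x.1 :: f3 x.1 :: F x.1)
          (f1 x.2 :: f2 x.2 :: f3 x.2 :: F x.2) := by
    intro f1 f2 f3 F h1 h2 h3 hF
    have : Primrec fun t : Dt => f1 t :: f2 t :: f3 t :: F t :=
      Primrec.list_cons.comp h1 (Primrec.list_cons.comp h2 (Primrec.list_cons.comp h3 hF))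
    exact (prim_simC hd.pos G hT).comp (this.comp Primrec.fst) (this.comp Primrec.snd)
  have s1 := hl prim_a prim_b prim_D (Primrec.const ([] : List W))
  have s2 := hl prim_a prim_b prim_D (F := fun t => [t.L0])
    (Primrec.list_cons.comp prim_L0 (Primrec.const []))
  have s3 := hl prim_a prim_b prim_D (F := fun t => [t.L0, t.a0, t.R0, t.b0])
    (Primrec.list_cons.comp prim_L0 (Primrec.list_cons.comp prim_a0
      (Primrec.list_cons.comp prim_R0 (Primrec.list_cons.comp prim_b0 (Primrec.const [])))))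
  have hp : PrimrecPred fun x : Dt × Dt => ((x.2.l1 ++ x.2.l2).map fun y => abG (wl d y)).Perm
      ((x.1.l1 ++ x.1.l2).map fun y => abG (wl d y)) :=
    (prim_perm hd.pos).comp (prim_l12.comp Primrec.fst) (prim_l12.comp Primrec.snd)
  have main := ((hk 0).and ((hk' 0).and h0)).or
    ((PrimrecPred.not (hk 0)).and (hkk.and
      ((((PrimrecPred.not (hk 2)).and (PrimrecPred.not (hk 3))).and s1).or
        (((hk 2).and s2).or ((hk 3).and (s3.and hp))))))
  refine main.of_eq ?_
  rintro ⟨t, t'⟩
  unfold SameD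
  dsimp only
  refine or_congr Iff.rfl (and_congr Iff.rfl (and_congr Iff.rfl ?_))
  simp only [SimC, List.map_cons, List.map_nil, List.cons.injEq, and_true]
  constructor
  · rintro (⟨⟨h2, h3⟩, g, e1, e2, e3⟩ | ⟨h2, g, e1, e2, e3, e4⟩ |
      ⟨h3, ⟨g, e1, e2, e3, e4, e5, e6, e7⟩, hperm⟩)
    · exact ⟨g, e1, e2, e3, fun h => absurd h h2, fun h => absurd h h3⟩
    · exact ⟨g, e1, e2, e3, fun _ => e4, fun h => by omega⟩
    · exact ⟨g, e1, e2, e3, fun h => by omega, fun _ => ⟨e4, e5, e6, e7, hperm⟩⟩
  · rintro ⟨g, e1, e2, e3, h2, h3⟩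
    by_cases c2 : t.kind = 2
    · exact Or.inr (Or.inl ⟨c2, g, e1, e2, e3, h2 c2⟩)
    · by_cases c3 : t.kind = 3
      · obtain ⟨e4, e5, e6, e7, hperm⟩ := h3 c3
        exact Or.inr (Or.inr ⟨c3, ⟨g, e1, e2, e3, e4, e5, e6, e7⟩, hperm⟩)
      · exact Or.inl ⟨⟨c2, c3⟩, g, e1, e2, e3⟩

end Pool.Agent.helper46.PV
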