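import Pool.Agent.helper4.PV.Defs
import Pool.Agent.helper47.PV.ToolB
/-! PV project (MP_c0bc55_al, S02951), group level: bounds for the decoding of test words, nodes and
conjugating elements, from `Geo` (with `cent` and `inj` every solution is bounded). -/
set_option autoImplicit false
namespace Pool.Agent.helper46.PV
open Pool.Agent.helper50.BW Pool.Agent.helper4.PV Pool.Agent.helper47.PV

section basic

variable {d : ℕ}

theorem wl_append (u v : W) : wl d (u ++ v) = wl d u * wl d v := by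
  unfold wl
  rw [← FreeGroup.mul_mk]
  rfl

theorem wl_nil : wl d [] = 1 := rfl

theorem wl_inv (u : W) : wl d (FreeGroup.invRev u) = (wl d u)⁻¹ := by
  unfold wl
  rw [← FreeGroup.inv_mk]
  rfl

theorem wl_npw (u : W) (k : ℕ) : wl d (npw u k) = wl d u ^ k := by
  unfold wl
  rw [mk_npw]
  rfl

theorem wl_wconj (g u : W) : wl d (wconj g u) = wl d g * wl d u * (wl d g)⁻¹ := by
  unfold wl
  rw [mk_wconj]
  rfl

theorem wl_surj (x : BB d) : ∃ u : W, wl d u = x := by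
  obtain ⟨g, rfl⟩ := QuotientGroup.mk_surjective x
  exact ⟨g.toWord, by unfold wl; rw [FreeGroup.mk_toWord]⟩

theorem pow_d (x : BB d) : x ^ d = 1 := by
  obtain ⟨g, rfl⟩ := QuotientGroup.mk_surjective x
  rw [← QuotientGroup.mk_pow, QuotientGroup.eq_one_iff]
  exact Subgroup.subset_closure ⟨g, rfl⟩

theorem mem_zpowers_nat (hd : 0 < d) {x h : BB d} (hh : h ∈ Subgroup.zpowers x) :
    ∃ j < d, h = x ^ j := by
  obtain ⟨k, rfl⟩ := hh
  have hd' : (d : ℤ) ≠ 0 := by exact_mod_cast hd.ne'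
  have hd0 : (0 : ℤ) < d := by exact_mod_cast hd
  refine ⟨(k % d).toNat, ?_, ?_⟩
  · have := Int.emod_lt_of_pos k hd0
    have := Int.emod_nonneg k hd'
    omega
  · have h1 : x ^ (d : ℤ) = 1 := by rw [zpow_natCast]; exact pow_d x
    have h2 : ((k % d).toNat : ℤ) = k % d := Int.toNat_of_nonneg (Int.emod_nonneg k hd')
    show x ^ k = x ^ (k % d).toNat
    rw [← zpow_natCast, h2, Int.emod_def, zpow_sub, zpow_mul, h1, one_zpow]
    simp

/-- `x` conjugate to `x ^ m` -/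
theorem conj_pow_self (hd : d.Prime) {x g : BB d} {m : ℤ} (hx : x ≠ 1)
    (h : g * x * g⁻¹ = x ^ m) : (d : ℤ) ∣ m - 1 := by
  have hord : orderOf x = d := by
    have h1 := orderOf_dvd_of_pow_eq_one (pow_d x)
    rcases (Nat.dvd_prime hd).1 h1 with h2 | h2
    · exact absurd (orderOf_eq_one_iff.1 h2) hx
    · exact h2
  have hit : ∀ k : ℕ, g ^ k * x * (g ^ k)⁻¹ = x ^ (m ^ k) := by
    intro k
    induction k with
    | zero => simp
    | succ k ih =>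
      rw [pow_succ', mul_inv_rev]
      calc g * g ^ k * x * ((g ^ k)⁻¹ * g⁻¹) = g * (g ^ k * x * (g ^ k)⁻¹) * g⁻¹ := by group
        _ = g * x ^ (m ^ k) * g⁻¹ := by rw [ih]
        _ = (g * x * g⁻¹) ^ (m ^ k) := by rw [conj_zpow]
        _ = x ^ m ^ (k + 1) := by rw [h, ← zpow_mul, ← pow_succ']
  have h1 := hit d
  rw [pow_d, one_mul, inv_one, mul_one] at h1
  have h2 : x ^ (m ^ d - 1) = 1 := by rw [zpow_sub, ← h1, zpow_one, mul_inv_cancel]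
  have h3 : (d : ℤ) ∣ m ^ d - 1 := by
    have := orderOf_dvd_iff_zpow_eq_one.2 h2
    rwa [hord] at this
  have := Fact.mk hd
  have h4 : (d : ℤ) ∣ m ^ d - m := by
    rw [← ZMod.intCast_zmod_eq_zero_iff_dvd]
    push_cast
    rw [ZMod.pow_card, sub_self]
  have := dvd_sub h3 h4
  have h5 : m ^ d - 1 - (m ^ d - m) = m - 1 := by ring
  rwa [h5] at this

end basic

section wt

variable {P : Par} {G : Type} [Group G]

theorem conj_Wt (h a y z : G) : h * Wt P a y z * h⁻¹ =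
    Wt P (h * a * h⁻¹) (h * y * h⁻¹) (h * z * h⁻¹) :=
  helper47.PV.conj_Wt P h a y z

theorem commute_conj {h a y : G} : Commute (h * a * h⁻¹) (h * y * h⁻¹) ↔ Commute a y := by
  have := (commute_map_iff (f := (MulAut.conj h).toMonoidHom) (x := a) (y := y)
    (MulAut.conj h).injective)
  simpa only [MulEquiv.toMonoidHom_eq_coe, MonoidHom.coe_coe, MulAut.conj_apply] using this

theorem nd_conj {h a y z : G} : Nd (h * a * h⁻¹) (h * y * h⁻¹) (h * z * h⁻¹) ↔ Nd a y z := by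
  unfold Nd
  rw [commute_conj, commute_conj]
  have : h * a * h⁻¹ ≠ 1 ↔ a ≠ 1 := by
    rw [not_iff_not]
    exact conj_eq_one_iff
  rw [this]

end wt

section bounds

variable {d : ℕ} {P : Par}

/-- `x` is the class of a word with letters `< n` and length `≤ ℓ` -/
def InW (n ℓ : ℕ) (x : BB d) : Prop := ∃ α : W, Ltr n α ∧ α.length ≤ ℓ ∧ wl d α = x

theorem InW.mono {n ℓ ℓ' : ℕ} (h : ℓ ≤ ℓ') {x : BB d} (hx : InW n ℓ x) : InW n ℓ' x := by
  obtain ⟨α, h1, h2, h3⟩ := hx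
  exact ⟨α, h1, h2.trans h, h3⟩

theorem InW.mul {n ℓ ℓ' : ℕ} {x y : BB d} (hx : InW n ℓ x) (hy : InW n ℓ' y) :
    InW n (ℓ + ℓ') (x * y) := by
  obtain ⟨α, h1, h2, h3⟩ := hx
  obtain ⟨β, h4, h5, h6⟩ := hy
  exact ⟨α ++ β, LtN.append h1 h4, by rw [List.length_append]; omega, by rw [wl_append, h3, h6]⟩

theorem InW.inv {n ℓ : ℕ} {x : BB d} (hx : InW n ℓ x) : InW n ℓ x⁻¹ := by
  obtain ⟨α, h1, h2, h3⟩ := hx
  exact ⟨FreeGroup.invRev α, LtN.invRev h1, by rw [FreeGroup.invRev_length]; exact h2,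
    by rw [wl_inv, h3]⟩

theorem InW.pow {n ℓ : ℕ} {x : BB d} (hx : InW n ℓ x) (k : ℕ) : InW n (k * ℓ) (x ^ k) := by
  induction k with
  | zero => exact ⟨[], LtN.nil n, by simp, by rw [wl_nil, pow_zero]⟩
  | succ k ih => rw [pow_succ, Nat.succ_mul]; exact ih.mul hx

theorem InW.conj {n ℓ ℓ' : ℕ} {g x : BB d} (hg : InW n ℓ g) (hx : InW n ℓ' x) :
    InW n (2 * ℓ + ℓ') (g * x * g⁻¹) :=
  ((hg.mul hx).mul hg.inv).mono (by omega)

theorem nd_of_not_commute {a b y : BB d} (h : ¬ Commute a b) : Nd a b y := by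
  refine ⟨?_, fun h' => h h'.1⟩
  rintro rfl
  exact h (Commute.one_left b)

theorem Wt_ne_one (G : Geo d P) {a y z : BB d} (h : Nd a y z) : Wt P a y z ≠ 1 := by
  intro h1
  apply G.ncomm a y z h
  rw [h1]
  exact Commute.one_left a

theorem nd_Wt (G : Geo d P) {a b y z : BB d} (h : ¬ Commute a b) : Nd a (Wt P a b y) z := by
  have h1 := G.ncomm a b y (nd_of_not_commute h)
  exact ⟨(nd_of_not_commute (y := y) h).1, fun h' => h1 h'.1.symm⟩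

/-- equal test words: the triples are conjugate by a power of the test word -/
theorem Wt_eq (hd : d.Prime) (G : Geo d P) {a y z a' y' z' : BB d} (h : Nd a y z)
    (he : Wt P a' y' z' = Wt P a y z) :
    ∃ j < d, a' = Wt P a y z ^ j * a * (Wt P a y z ^ j)⁻¹ ∧
      y' = Wt P a y z ^ j * y * (Wt P a y z ^ j)⁻¹ ∧
      z' = Wt P a y z ^ j * z * (Wt P a y z ^ j)⁻¹ := by
  have hd1 : ¬ (d : ℤ) ∣ 1 := by
    intro h1
    have := Int.le_of_dvd (by norm_num) h1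
    have := hd.two_le
    omega
  obtain ⟨-, g, h1, h2, h3⟩ := G.inj a y z a' y' z' 1 1 h hd1 (by rw [he]; simp)
  have hc : Commute g (Wt P a y z) := by
    have h4 := conj_Wt (P := P) g a y z
    rw [← h1, ← h2, ← h3, he] at h4
    exact mul_inv_eq_iff_eq_mul.1 h4
  obtain ⟨j, hj, rfl⟩ := mem_zpowers_nat hd.pos (G.cent _ _ (Wt_ne_one G h) hc)
  exact ⟨j, hj, h1, h2, h3⟩

theorem prim_pow (Q : ℕ) : Primrec fun ℓ : ℕ => Q ^ ℓ := by
  have h : Primrec (Nat.rec (motive := fun _ => ℕ) 1 (fun _ v => v * Q) : ℕ → ℕ) :=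
    Primrec.nat_rec₁ 1 (Primrec.nat_mul.comp Primrec.snd (Primrec.const Q))
  refine h.of_eq fun ℓ => ?_
  induction ℓ with
  | zero => rfl
  | succ ℓ ih => rw [pow_succ, ← ih]

/-- All solutions are bounded. -/
theorem exists_bd (hd : d.Prime) (G : Geo d P) : ∃ bd : ℕ → ℕ, Primrec bd ∧ (∀ ℓ, ℓ ≤ bd ℓ) ∧
    (∀ (n ℓ : ℕ) (u a y z : BB d), InW n ℓ u → Nd a y z → u = Wt P a y z →
      InW n (bd ℓ) a ∧ InW n (bd ℓ) y ∧ InW n (bd ℓ) z) ∧
    (∀ (n ℓ : ℕ) (u a b y z : BB d), InW n ℓ u → ¬ Commute a b → u = Wt P a (Wt P a b y) z →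
      InW n (bd ℓ) a ∧ InW n (bd ℓ) b ∧ InW n (bd ℓ) y ∧ InW n (bd ℓ) z) ∧
    (∀ (n ℓ : ℕ) (u v h : BB d), InW n ℓ u → InW n ℓ v → u ≠ 1 → v = h * u * h⁻¹ →
      InW n (bd ℓ) h) := by
  obtain ⟨C, Q, hCQ⟩ := G.decB
  obtain ⟨C', Q', hCQ'⟩ := G.conjB
  obtain ⟨b1, hb1⟩ : ∃ b1 : ℕ → ℕ, b1 = fun ℓ => C * Q ^ ℓ + C' * Q' ^ ℓ + 2 * d * ℓ := ⟨_, rfl⟩
  have hp1 : Primrec b1 := by
    rw [hb1]
    have e1 : Primrec fun ℓ : ℕ => C * Q ^ ℓ :=
      Primrec.nat_mul.comp (Primrec.const C) (prim_pow Q)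
    have e2 : Primrec fun ℓ : ℕ => C' * Q' ^ ℓ :=
      Primrec.nat_mul.comp (Primrec.const C') (prim_pow Q')
    exact Primrec.nat_add.comp (Primrec.nat_add.comp e1 e2)
      (Primrec.nat_mul.comp (Primrec.const (2 * d)) Primrec.id)
  have hd2 := hd.two_le
  have hle1 : ∀ ℓ, ℓ ≤ b1 ℓ := by
    intro ℓ
    rw [hb1]
    show ℓ ≤ C * Q ^ ℓ + C' * Q' ^ ℓ + 2 * d * ℓ
    have : ℓ ≤ 2 * d * ℓ := Nat.le_mul_of_pos_left _ (by omega)
    omega
  have hdec : ∀ (n ℓ : ℕ) (u a y z : BB d), InW n ℓ u → Nd a y z → u = Wt P a y z →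
      InW n (b1 ℓ) a ∧ InW n (b1 ℓ) y ∧ InW n (b1 ℓ) z := by
    intro n ℓ u a y z hu hN he
    obtain ⟨w, hw1, hw2, rfl⟩ := hu
    obtain ⟨α, β, γ, hα, hβ, hγ, hα', hβ', hγ', hw⟩ := hCQ n ℓ w hw1 hw2 ⟨a, y, z, hN, he⟩
    have he2 : Wt P (wl d α) (wl d β) (wl d γ) = Wt P a y z := by rw [← hw, he]
    obtain ⟨j, hj, h1, h2, h3⟩ := Wt_eq hd G hN he2
    rw [← he] at h1 h2 h3
    have hg : InW n (d * ℓ) ((wl d w) ^ j)⁻¹ :=
      (((show InW n ℓ (wl d w) from ⟨w, hw1, hw2, rfl⟩).pow j).mono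
        (Nat.mul_le_mul_right ℓ hj.le)).inv
    have key : ∀ (x : BB d) (v : W), Ltr n v → v.length ≤ C * Q ^ ℓ →
        wl d v = wl d w ^ j * x * (wl d w ^ j)⁻¹ → InW n (b1 ℓ) x := by
      intro x v hv hv' hx
      have h4 : x = (wl d w ^ j)⁻¹ * wl d v * ((wl d w ^ j)⁻¹)⁻¹ := by rw [hx]; group
      rw [h4]
      refine (hg.conj (show InW n _ (wl d v) from ⟨v, hv, hv', rfl⟩)).mono ?_
      rw [hb1]
      show 2 * (d * ℓ) + C * Q ^ ℓ ≤ C * Q ^ ℓ + C' * Q' ^ ℓ + 2 * d * ℓ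
      have : 2 * (d * ℓ) = 2 * d * ℓ := by ring
      omega
    exact ⟨key a α hα hα' h1, key y β hβ hβ' h2, key z γ hγ hγ' h3⟩
  have hconj : ∀ (n ℓ : ℕ) (u v h : BB d), InW n ℓ u → InW n ℓ v → u ≠ 1 → v = h * u * h⁻¹ →
      InW n (b1 ℓ) h := by
    intro n ℓ u v h hu hv hu1 he
    obtain ⟨p, hp1, hp2, rfl⟩ := hu
    obtain ⟨q, hq1, hq2, rfl⟩ := hv
    obtain ⟨t, ht1, ht2, ht3⟩ := hCQ' n ℓ p q hp1 hq1 hp2 hq2 (isConj_iff.2 ⟨h, he.symm⟩)
    have hc : Commute ((wl d t)⁻¹ * h) (wl d p) := by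
      have h1 : wl d t * wl d p * (wl d t)⁻¹ = h * wl d p * h⁻¹ := by rw [ht3, he]
      show (wl d t)⁻¹ * h * wl d p = wl d p * ((wl d t)⁻¹ * h)
      calc (wl d t)⁻¹ * h * wl d p = (wl d t)⁻¹ * (h * wl d p * h⁻¹) * h := by group
        _ = (wl d t)⁻¹ * (wl d t * wl d p * (wl d t)⁻¹) * h := by rw [h1]
        _ = _ := by group
    obtain ⟨j, hj, hj'⟩ := mem_zpowers_nat hd.pos (G.cent _ _ hu1 hc)
    have h5 : h = wl d t * wl d p ^ j := by rw [← hj']; group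
    rw [h5]
    refine ((show InW n _ (wl d t) from ⟨t, ht1, ht2, rfl⟩).mul
      ((show InW n ℓ (wl d p) from ⟨p, hp1, hp2, rfl⟩).pow j)).mono ?_
    rw [hb1]
    show C' * Q' ^ ℓ + j * ℓ ≤ C * Q ^ ℓ + C' * Q' ^ ℓ + 2 * d * ℓ
    have h6 : j * ℓ ≤ 2 * d * ℓ := Nat.mul_le_mul_right ℓ (by omega)
    omega
  refine ⟨fun ℓ => b1 (b1 ℓ) + b1 ℓ, Primrec.nat_add.comp (hp1.comp hp1) hp1, ?_, ?_, ?_, ?_⟩
  · intro ℓ
    have := hle1 ℓ
    show ℓ ≤ b1 (b1 ℓ) + b1 ℓ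
    omega
  · intro n ℓ u a y z hu hN he
    obtain ⟨h1, h2, h3⟩ := hdec n ℓ u a y z hu hN he
    have : b1 ℓ ≤ b1 (b1 ℓ) + b1 ℓ := by omega
    exact ⟨h1.mono this, h2.mono this, h3.mono this⟩
  · intro n ℓ u a b y z hu hab he
    obtain ⟨h1, h2, h3⟩ := hdec n ℓ u a (Wt P a b y) z hu (nd_Wt G hab) he
    obtain ⟨h4, h5, h6⟩ := hdec n (b1 ℓ) (Wt P a b y) a b y h2 (nd_of_not_commute hab) rfl
    have e1 : b1 ℓ ≤ b1 (b1 ℓ) + b1 ℓ := by omega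
    have e2 : b1 (b1 ℓ) ≤ b1 (b1 ℓ) + b1 ℓ := by omega
    exact ⟨h1.mono e1, h5.mono e2, h6.mono e2, h3.mono e1⟩
  · intro n ℓ u v h hu hv hu1 he
    exact (hconj n ℓ u v h hu hv hu1 he).mono (by show b1 ℓ ≤ b1 (b1 ℓ) + b1 ℓ; omega)

/-- an integer exponent prime to `d` can be inverted -/
theorem exists_inv_exp (hd : d.Prime) {k : ℤ} (hk : ¬ (d : ℤ) ∣ k) :
    ∃ k' < d, k' ≠ 0 ∧ ∀ x : BB d, (x ^ k) ^ k' = x := by
  have hcop : IsCoprime k (d : ℤ) := by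
    rw [Int.isCoprime_iff_gcd_eq_one, Int.gcd_comm]
    rcases (Nat.dvd_prime hd).1 (Int.gcd_dvd_natAbs_left (d : ℤ) k) with h | h
    · exact h
    · exfalso
      apply hk
      have h1 : ((Int.gcd (d : ℤ) k : ℕ) : ℤ) ∣ k := Int.gcd_dvd_right ..
      rw [h] at h1
      exact h1
  obtain ⟨u, v, huv⟩ := hcop
  have hd' : (d : ℤ) ≠ 0 := by exact_mod_cast hd.ne_zero
  have hd0 : (0 : ℤ) < d := by exact_mod_cast hd.pos
  have e1 : ((u % d).toNat : ℤ) = u % d := Int.toNat_of_nonneg (Int.emod_nonneg u hd')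
  have hx : ∀ x : BB d, (x ^ k) ^ (u % d).toNat = x := by
    intro x
    have h1 : ∀ y : BB d, y ^ (d : ℤ) = 1 := fun y => by rw [zpow_natCast]; exact pow_d y
    rw [← zpow_natCast, e1, Int.emod_def, zpow_sub, zpow_mul, h1, one_zpow, inv_one, mul_one,
      ← zpow_mul]
    have h2 : k * u = 1 - d * v := by linear_combination huv
    rw [h2, zpow_sub, zpow_mul, h1, one_zpow, zpow_one, inv_one, mul_one]
  refine ⟨(u % d).toNat, ?_, ?_, hx⟩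
  · have := Int.emod_lt_of_pos u hd0
    omega
  · intro h0
    rw [h0] at e1
    have h1 : (d : ℤ) ∣ u := Int.dvd_of_emod_eq_zero (by rw [← e1]; rfl)
    obtain ⟨c, rfl⟩ := h1
    have h2 : (d : ℤ) ∣ 1 := ⟨c * k + v, by linear_combination -huv⟩
    have := Int.le_of_dvd (by norm_num) h2
    have := hd.two_le
    omega

theorem zpow_eq_pow (hd : d.Prime) (k : ℤ) (hk : ¬ (d : ℤ) ∣ k) :
    ∃ k' < d, k' ≠ 0 ∧ ∀ x : BB d, x ^ k = x ^ k' := by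
  have hd' : (d : ℤ) ≠ 0 := by exact_mod_cast hd.ne_zero
  have hd0 : (0 : ℤ) < d := by exact_mod_cast hd.pos
  have e1 : ((k % d).toNat : ℤ) = k % d := Int.toNat_of_nonneg (Int.emod_nonneg k hd')
  refine ⟨(k % d).toNat, ?_, ?_, ?_⟩
  · have := Int.emod_lt_of_pos k hd0
    omega
  · intro h0
    rw [h0] at e1
    exact hk (Int.dvd_of_emod_eq_zero (by rw [← e1]; rfl))
  · intro x
    have h1 : x ^ (d : ℤ) = 1 := by rw [zpow_natCast]; exact pow_d x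
    rw [← zpow_natCast, e1, Int.emod_def, zpow_sub, zpow_mul, h1, one_zpow, inv_one, mul_one]

theorem not_dvd_of_lt (k : ℕ) (hk : k < d) (hk0 : k ≠ 0) : ¬ (d : ℤ) ∣ (k : ℤ) := by
  intro h
  have := Nat.le_of_dvd (Nat.pos_of_ne_zero hk0) (Int.natCast_dvd_natCast.1 h)
  omega

/-- being a conjugate of a power of a test word -/
theorem powtest_iff (hd : d.Prime) (u : BB d) :
    (∃ (g : BB d) (k : ℤ) (a y z : BB d), ¬ (d : ℤ) ∣ k ∧ Nd a y z ∧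
      u = g * Wt P a y z ^ k * g⁻¹) ↔
    ∃ k < d, k ≠ 0 ∧ ∃ a y z : BB d, Nd a y z ∧ u ^ k = Wt P a y z := by
  constructor
  · rintro ⟨g, k, a, y, z, hk, hN, he⟩
    obtain ⟨k', h1, h2, h3⟩ := exists_inv_exp hd hk
    refine ⟨k', h1, h2, g * a * g⁻¹, g * y * g⁻¹, g * z * g⁻¹, nd_conj.2 hN, ?_⟩
    rw [he, conj_pow, h3, conj_Wt]
  · rintro ⟨k, h1, h2, a, y, z, hN, he⟩
    obtain ⟨k', h3, h4, h5⟩ := exists_inv_exp hd (not_dvd_of_lt k h1 h2)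
    refine ⟨1, k', a, y, z, not_dvd_of_lt k' h3 h4, hN, ?_⟩
    have := h5 u
    rw [zpow_natCast, he] at this
    rw [zpow_natCast, this]
    simp

/-- `v` is conjugate to a power of `u` -/
theorem powconj_iff (hd : d.Prime) (u v : BB d) :
    (∃ (g : BB d) (k : ℤ), ¬ (d : ℤ) ∣ k ∧ v = g * u ^ k * g⁻¹) ↔
    ∃ k < d, k ≠ 0 ∧ ∃ g : BB d, v = g * u ^ k * g⁻¹ := by
  constructor
  · rintro ⟨g, k, hk, he⟩
    obtain ⟨k', h1, h2, h3⟩ := zpow_eq_pow hd k hk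
    exact ⟨k', h1, h2, g, by rw [he, h3]⟩
  · rintro ⟨k, h1, h2, g, he⟩
    exact ⟨g, k, not_dvd_of_lt k h1 h2, by rw [zpow_natCast]; exact he⟩

end bounds

end Pool.Agent.helper46.PV
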