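import Pool.Agent.helper46.PV.G1
import Pool.Agent.helper47.PV.ToolG
import Pool.Agent.helper24.PV.GDefs
/-! PV project (MP_c0bc55_al, S02951), group level: decidable predicates of elements relative to a good
frame: closure properties, decoding of nodes, patterns. -/
set_option autoImplicit false
namespace Pool.Agent.helper46.PV
open Pool.Agent.helper50.BW (W Fd Triv)
open Pool.Agent.helper4.PV (BB wl Ltr Par Wt Nd Geo)
open Pool.Agent.helper47.PV
open Pool.Agent.helper24.PV

variable {d : ℕ} {P : Par}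

/-- the first argument given, the test word is injective -/
theorem Wt_inj (hd : d.Prime) (G : Geo d P) {a y z y' z' : BB d} (h : Nd a y z)
    (he : Wt P a y' z' = Wt P a y z) : y' = y ∧ z' = z := by
  obtain ⟨j, hj, h1, h2, h3⟩ := Wt_eq hd G h he
  have hc : Commute (Wt P a y z ^ j) a := by
    have := mul_inv_eq_iff_eq_mul.1 h1.symm
    exact this
  by_cases h4 : Wt P a y z ^ j = 1
  · rw [h4] at h2 h3
    simp only [one_mul, inv_one, mul_one] at h2 h3
    exact ⟨h2, h3⟩
  · exfalso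
    apply G.ncomm a y z h
    have h5 := G.cent _ _ h4 hc.symm
    obtain ⟨k, hk⟩ := h5
    have hk' : (Wt P a y z ^ j) ^ k = a := hk
    have h6 : Commute (Wt P a y z) ((Wt P a y z ^ j) ^ k) :=
      ((Commute.refl (Wt P a y z)).pow_right j).zpow_right k
    rwa [hk'] at h6

/-- decoding of nodes -/
theorem exists_decN (hd : d.Prime) (G : Geo d P) (hT : PrimrecPred fun w : W => Triv d w) :
    ∃ s : W × W × W → Option (W × W), Primrec s ∧
      (∀ a b u y z, ¬ Commute (wl d a) (wl d b) → s (a, b, u) = some (y, z) →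
        wl d u = Wt P (wl d a) (Wt P (wl d a) (wl d b) (wl d y)) (wl d z) ∧
        ∀ n, LtN n u → LtN n y ∧ LtN n z) ∧
      (∀ a b u, ¬ Commute (wl d a) (wl d b) → s (a, b, u) = none →
        ¬ ∃ y z : BB d, wl d u = Wt P (wl d a) (Wt P (wl d a) (wl d b) y) z) := by
  classical
  have hd1 : ¬ (d : ℤ) ∣ 1 := by
    intro h1
    have := Int.le_of_dvd (by norm_num) h1
    have := hd.two_le
    omega
  obtain ⟨D, hD1, hD2, hD3⟩ := exists_decA G hd.pos hd1 hT
  have hR : PrimrecPred fun x : ((W × W × W) × (W × W)) × (W × W) => wl d x.2.1 = wl d x.1.1.2.1 :=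
    (prim_wlEq hT).comp (Primrec.fst.comp Primrec.snd)
      (Primrec.fst.comp (Primrec.snd.comp (Primrec.fst.comp Primrec.fst)))
  refine ⟨fun x => (D (x.1, x.2.2)).bind fun p => (D (x.1, p.1)).bind fun q =>
    if wl d q.1 = wl d x.2.1 then some (q.2, p.2) else none, ?_, ?_, ?_⟩
  · refine Primrec.option_bind (hD1.comp (Primrec.pair Primrec.fst
      (Primrec.snd.comp Primrec.snd))) ?_
    refine Primrec.option_bind (hD1.comp (Primrec.pair (Primrec.fst.comp Primrec.fst)
      (Primrec.fst.comp Primrec.snd))) ?_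
    exact Primrec.ite hR (Primrec.option_some.comp (Primrec.pair (Primrec.snd.comp Primrec.snd)
      (Primrec.snd.comp (Primrec.snd.comp Primrec.fst)))) (Primrec.const none)
  · intro a b u y z hab h
    obtain ⟨⟨p, z'⟩, h1, h2⟩ := Option.bind_eq_some_iff.1 h
    obtain ⟨⟨b', y'⟩, h3, h4⟩ := Option.bind_eq_some_iff.1 h2
    dsimp only at h1 h3 h4
    split_ifs at h4 with h5
    simp only [Option.some.injEq, Prod.mk.injEq] at h4
    obtain ⟨rfl, rfl⟩ := h4
    obtain ⟨-, h7, h8⟩ := hD2 _ _ _ _ h1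
    obtain ⟨-, h10, h11⟩ := hD2 _ _ _ _ h3
    refine ⟨by rw [h7, h10, h5], fun n hn => ⟨(h11 n (h8 n hn).1).2, (h8 n hn).2⟩⟩
  · rintro a b u hab h ⟨y, z, he⟩
    have hN : Nd (wl d a) (Wt P (wl d a) (wl d b) y) z := nd_Wt G hab
    have h1 : D (a, u) ≠ none := fun h1 => hD3 _ _ h1 ⟨_, _, hN, he⟩
    obtain ⟨⟨p, z'⟩, h2⟩ := Option.ne_none_iff_exists'.1 h1
    obtain ⟨h3, h4, -⟩ := hD2 _ _ _ _ h2
    obtain ⟨h5, h6⟩ := Wt_inj hd G hN (h4.symm.trans he)
    have h7 : D (a, p) ≠ none := fun h7 => hD3 _ _ h7 ⟨_, _, nd_of_not_commute hab, h5⟩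
    obtain ⟨⟨b', y'⟩, h8⟩ := Option.ne_none_iff_exists'.1 h7
    obtain ⟨h9, h10, -⟩ := hD2 _ _ _ _ h8
    obtain ⟨h11, h12⟩ := Wt_inj hd G (nd_of_not_commute (y := y) hab) (h10.symm.trans h5)
    dsimp only at h
    rw [h2, Option.bind_some, h8, Option.bind_some, if_pos h11] at h
    exact absurd h (Option.some_ne_none _)

theorem ops_inj (hd : d.Prime) (G : Geo d P) {a b y z y' z' : BB d} (hab : ¬ Commute a b)
    (h : (ops P a b).nd y z = (ops P a b).nd y' z') : y = y' ∧ z = z' := by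
  obtain ⟨h1, h2⟩ := Wt_inj hd G (nd_Wt (z := z') (y := y') G hab) h
  obtain ⟨h3, h4⟩ := Wt_inj hd G (nd_of_not_commute (y := y') hab) h1
  exact ⟨h4, h2⟩

/-- predicates on (frame, element), decidable on words -/
def DecP (d : ℕ) (R : BB d → BB d → BB d → Prop) : Prop :=
  PrimrecPred fun p : W × W × W => ¬ Commute (wl d p.1) (wl d p.2.1) ∧
    R (wl d p.1) (wl d p.2.1) (wl d p.2.2)

section closure

theorem prim_comm (hT : PrimrecPred fun w : W => Triv d w) :
    PrimrecRel fun u v : W => Commute (wl d u) (wl d v) := by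
  refine ((prim_wlEq hT).comp (Primrec.list_append.comp Primrec.fst Primrec.snd)
    (Primrec.list_append.comp Primrec.snd Primrec.fst)).of_eq ?_
  rintro ⟨u, v⟩
  rw [wl_append, wl_append]
  exact Iff.rfl

theorem DecP.tt (hT : PrimrecPred fun w : W => Triv d w) : DecP d fun _ _ _ => True := by
  refine (((prim_comm hT).comp Primrec.fst (Primrec.fst.comp Primrec.snd)).not).of_eq fun p => ?_
  simp

theorem DecP.and {R S : BB d → BB d → BB d → Prop} (hR : DecP d R) (hS : DecP d S) :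
    DecP d fun a b x => R a b x ∧ S a b x := by
  refine (PrimrecPred.and hR hS).of_eq fun p => ?_
  tauto

theorem DecP.or {R S : BB d → BB d → BB d → Prop} (hR : DecP d R) (hS : DecP d S) :
    DecP d fun a b x => R a b x ∨ S a b x := by
  refine (PrimrecPred.or hR hS).of_eq fun p => ?_
  tauto

theorem DecP.not (hT : PrimrecPred fun w : W => Triv d w) {R : BB d → BB d → BB d → Prop}
    (hR : DecP d R) : DecP d fun a b x => ¬ R a b x := by
  refine (PrimrecPred.and (DecP.tt hT) (PrimrecPred.not hR)).of_eq fun p => ?_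
  tauto

theorem DecP.congr {R S : BB d → BB d → BB d → Prop} (hR : DecP d R)
    (h : ∀ a b x, ¬ Commute a b → (R a b x ↔ S a b x)) : DecP d S := by
  refine PrimrecPred.of_eq hR fun p => ?_
  constructor
  · rintro ⟨h1, h2⟩
    exact ⟨h1, (h _ _ _ h1).1 h2⟩
  · rintro ⟨h1, h2⟩
    exact ⟨h1, (h _ _ _ h1).2 h2⟩

theorem DecP.const (hT : PrimrecPred fun w : W => Triv d w) (p : Prop) :
    DecP d fun _ _ _ => p := by
  by_cases h : p
  · exact (DecP.tt hT).congr fun _ _ _ _ => by simp [h]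
  · exact ((DecP.tt hT).not hT).congr fun _ _ _ _ => by simp [h]

theorem DecP.eqZ (hT : PrimrecPred fun w : W => Triv d w) :
    DecP d fun a b x => x = (ops P a b).Z := by
  refine PrimrecPred.and (DecP.tt hT) ((prim_wlEq hT).comp (Primrec.snd.comp Primrec.snd)
    (Primrec.fst.comp Primrec.snd)) |>.of_eq fun p => ?_
  show (_ ∧ True) ∧ _ ↔ _ ∧ _ = wl d p.2.1
  tauto

theorem DecP.eqO (hT : PrimrecPred fun w : W => Triv d w) :
    DecP d fun a b x => x = (ops P a b).O := by
  refine PrimrecPred.and (DecP.tt hT) ((prim_wlEq hT).comp (Primrec.snd.comp Primrec.snd)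
    Primrec.fst) |>.of_eq fun p => ?_
  show (_ ∧ True) ∧ _ ↔ _ ∧ _ = wl d p.1
  tauto

/-- finite existential quantifiers -/
theorem DecP.exFin (hT : PrimrecPred fun w : W => Triv d w) {ι : Type*} [Finite ι]
    {R : ι → BB d → BB d → BB d → Prop} (hR : ∀ i, DecP d (R i)) :
    DecP d fun a b x => ∃ i, R i a b x := by
  classical
  have := Fintype.ofFinite ι
  have h : ∀ s : Finset ι, DecP d fun a b x => ∃ i ∈ s, R i a b x := by
    intro s
    induction s using Finset.induction_on with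
    | empty => exact (DecP.const hT False).congr fun _ _ _ _ => by simp
    | insert i s hi ih => exact ((hR i).or ih).congr fun _ _ _ _ => by simp
  exact (h Finset.univ).congr fun _ _ _ _ => by simp

/-- nodes -/
theorem DecP.node (hd : d.Prime) (G : Geo d P) (hT : PrimrecPred fun w : W => Triv d w)
    {R S : BB d → BB d → BB d → Prop} (hR : DecP d R) (hS : DecP d S) :
    DecP d fun a b x => ∃ y z, x = (ops P a b).nd y z ∧ R a b y ∧ S a b z := by
  obtain ⟨D, hD1, hD2, hD3⟩ := exists_decN hd G hT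
  have h1 : PrimrecPred fun p : W × W × W => ∃ t ∈ (D p).toList,
      (¬ Commute (wl d p.1) (wl d p.2.1) ∧ R (wl d p.1) (wl d p.2.1) (wl d t.1)) ∧
      (¬ Commute (wl d p.1) (wl d p.2.1) ∧ S (wl d p.1) (wl d p.2.1) (wl d t.2)) := by
    refine primrecPred_exists_mem (R := fun (p : W × W × W) (t : W × W) =>
      (¬ Commute (wl d p.1) (wl d p.2.1) ∧ R (wl d p.1) (wl d p.2.1) (wl d t.1)) ∧
      (¬ Commute (wl d p.1) (wl d p.2.1) ∧ S (wl d p.1) (wl d p.2.1) (wl d t.2))) ?_
      (Primrec.optionToList.comp hD1)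
    have e : ∀ {f : (W × W × W) × (W × W) → W}, Primrec f →
        Primrec fun x : (W × W × W) × (W × W) => (x.1.1, x.1.2.1, f x) := fun hf =>
      Primrec.pair (Primrec.fst.comp Primrec.fst) (Primrec.pair (Primrec.fst.comp
        (Primrec.snd.comp Primrec.fst)) hf)
    exact PrimrecPred.and (PrimrecPred.comp hR (e (Primrec.fst.comp Primrec.snd)))
      (PrimrecPred.comp hS (e (Primrec.snd.comp Primrec.snd)))
  refine h1.of_eq fun p => ?_
  obtain ⟨α, β, u⟩ := p
  dsimp only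
  constructor
  · rintro ⟨⟨η, ζ⟩, ht, ⟨h2, h3⟩, ⟨-, h4⟩⟩
    rw [Option.mem_toList] at ht
    exact ⟨h2, _, _, (hD2 _ _ _ _ _ h2 ht).1, h3, h4⟩
  · rintro ⟨h2, y, z, h3, h4, h5⟩
    have h6 : D (α, β, u) ≠ none := fun h6 => hD3 _ _ _ h2 h6 ⟨y, z, h3⟩
    obtain ⟨⟨η, ζ⟩, h7⟩ := Option.ne_none_iff_exists'.1 h6
    obtain ⟨h8, -⟩ := hD2 _ _ _ _ _ h2 h7
    have h9 : (ops P (wl d α) (wl d β)).nd y z = (ops P (wl d α) (wl d β)).nd (wl d η) (wl d ζ) :=
      h3.symm.trans h8
    obtain ⟨rfl, rfl⟩ := ops_inj hd G h2 h9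
    exact ⟨(η, ζ), by rw [Option.mem_toList]; exact h7, ⟨h2, h4⟩, ⟨h2, h5⟩⟩

end closure

end Pool.Agent.helper46.PV
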