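import Pool.Agent.helper46.PV.G2
/-! PV project (MP_c0bc55_al, S02951), group level: the patterns of the rewriting system are decidable
predicates relative to a good frame (`DecP`): zippers, numerals, states, stuck data. -/
set_option autoImplicit false
namespace Pool.Agent.helper46.PV
open Pool.Agent.helper50.BW (W Fd Triv)
open Pool.Agent.helper4.PV (BB wl Ltr Par Wt Nd Geo)
open Pool.Agent.helper47.PV
open Pool.Agent.helper24.PV

variable {d : ℕ} {P : Par}

/-- the domain of the data steps -/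
def DomD {M : Type} (A : Ops M) (T : RM) (p1 p2 : Prop) (D : M) : Prop :=
  (p1 ∧ ∃ t, D = A.c1 t) ∨ (p2 ∧ ∃ t, D = A.c2 t) ∨
  (∃ (q : Fin T.nQ) (z : Fin T.K → Bool), T.halt q = false ∧
    ∃ t s v, D = A.st t (A.nd A.O s) (A.sc T q (A.lhs z v))) ∨
  (∃ t x, D = A.st t A.Z x)

theorem dom_iff {M : Type} (A : Ops M) (T : RM) (p1 : Prop) (a2 : M → Prop) (D : M) :
    (∃ D', A.DS T p1 a2 D D') ↔ DomD A T p1 (∃ a, a2 a) D := by
  constructor
  · rintro ⟨D', h⟩
    cases h with
    | v1 h t => exact Or.inl ⟨h, t, rfl⟩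
    | v2 a h t => exact Or.inr (Or.inl ⟨⟨a, h⟩, t, rfl⟩)
    | sim q z v t s h => exact Or.inr (Or.inr (Or.inl ⟨q, z, h, t, s, v, rfl⟩))
    | rst t x => exact Or.inr (Or.inr (Or.inr ⟨t, x, rfl⟩))
  · rintro (⟨h, t, rfl⟩ | ⟨⟨a, h⟩, t, rfl⟩ | ⟨q, z, h, t, s, v, rfl⟩ | ⟨t, x, rfl⟩)
    · exact ⟨_, Ops.DS.v1 h t⟩
    · exact ⟨_, Ops.DS.v2 a h t⟩
    · exact ⟨_, Ops.DS.sim q z v t s h⟩
    · exact ⟨_, Ops.DS.rst t x⟩

/-- killed data -/
def KilD {M : Type} (A : Ops M) (T : RM) (D : M) : Prop :=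
  ∃ q : Fin T.nQ, T.halt q = true ∧ ∃ t s r, D = A.st t (A.nd A.O s) (A.nd (A.num q) r)

theorem dk_iff {M : Type} (A : Ops M) (T : RM) (D : M) : A.DK T D ↔ KilD A T D := by
  constructor
  · intro h
    cases h with
    | halt q h r t s => exact ⟨q, h, t, s, r, rfl⟩
  · rintro ⟨q, h, t, s, r, rfl⟩
    exact Ops.DK.halt q h r t s

theorem stuck_iff {M : Type} (A : Ops M) (T : RM) (p1 : Prop) (a2 : M → Prop) (D : M) :
    A.Stuck T p1 a2 D ↔ ¬ DomD A T p1 (∃ a, a2 a) D ∧ ¬ KilD A T D := by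
  unfold Ops.Stuck
  rw [dk_iff, ← dom_iff, not_exists]

section patterns

variable (hd : d.Prime) (G : Geo d P) (hT : PrimrecPred fun w : W => Triv d w)

include hd G hT

theorem DecP.isNode : DecP d fun a b x => ∃ y z, x = (ops P a b).nd y z :=
  ((DecP.tt hT).node hd G hT (DecP.tt hT)).congr fun _ _ _ _ => by simp

theorem DecP.isZip : DecP d fun a b x => (ops P a b).IsZip x := by
  refine ((DecP.isNode hd G hT).node hd G hT (DecP.isNode hd G hT)).congr fun a b x _ => ?_
  constructor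
  · rintro ⟨y, z, h, ⟨L, a', rfl⟩, ⟨R, b', rfl⟩⟩
    exact ⟨L, a', R, b', h⟩
  · rintro ⟨L, a', R, b', h⟩
    exact ⟨_, _, h, ⟨L, a', rfl⟩, ⟨R, b', rfl⟩⟩

theorem DecP.suc : DecP d fun a b x => ∃ y, x = (ops P a b).nd (ops P a b).O y := by
  refine ((DecP.eqO (P := P) hT).node hd G hT (DecP.tt hT)).congr fun a b x _ => ?_
  constructor
  · rintro ⟨y, z, h, rfl, -⟩
    exact ⟨z, h⟩
  · rintro ⟨z, h⟩
    exact ⟨_, z, h, rfl, trivial⟩

theorem DecP.num (i : ℕ) : DecP d fun a b x => x = (ops P a b).num i := by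
  induction i with
  | zero => exact DecP.eqZ hT
  | succ i ih =>
    refine ((DecP.eqO (P := P) hT).node hd G hT ih).congr fun a b x _ => ?_
    constructor
    · rintro ⟨y, z, h, rfl, rfl⟩
      exact h
    · intro h
      exact ⟨_, _, h, rfl, rfl⟩

theorem DecP.c1 : DecP d fun a b x => ∃ t, x = (ops P a b).c1 t := by
  refine ((DecP.num hd G hT 0).node hd G hT (DecP.tt hT)).congr fun a b x _ => ?_
  constructor
  · rintro ⟨y, z, h, rfl, -⟩
    exact ⟨z, h⟩
  · rintro ⟨z, h⟩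
    exact ⟨_, z, h, rfl, trivial⟩

theorem DecP.c2 : DecP d fun a b x => ∃ t, x = (ops P a b).c2 t := by
  refine ((DecP.num hd G hT 1).node hd G hT (DecP.tt hT)).congr fun a b x _ => ?_
  constructor
  · rintro ⟨y, z, h, rfl, -⟩
    exact ⟨z, h⟩
  · rintro ⟨z, h⟩
    exact ⟨_, z, h, rfl, trivial⟩

theorem DecP.st {R S : BB d → BB d → BB d → Prop} (hR : DecP d R) (hS : DecP d S) :
    DecP d fun a b x => ∃ t s y, x = (ops P a b).st t s y ∧ R a b s ∧ S a b y := by
  refine ((DecP.num hd G hT 2).node hd G hT ((DecP.tt hT).node hd G hT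
    (hR.node hd G hT hS))).congr fun a b x _ => ?_
  constructor
  · rintro ⟨_, _, h, rfl, t, _, rfl, -, s, y, rfl, hs, hy⟩
    exact ⟨t, s, y, h, hs, hy⟩
  · rintro ⟨t, s, y, h, hs, hy⟩
    exact ⟨_, _, h, rfl, t, _, rfl, trivial, s, y, rfl, hs, hy⟩

theorem DecP.tup : ∀ (K : ℕ) (R : Fin K → BB d → BB d → BB d → Prop), (∀ i, DecP d (R i)) →
    DecP d fun a b x => ∃ r : Fin K → BB d, x = (ops P a b).tup r ∧ ∀ i, R i a b (r i) := by
  intro K
  induction K with
  | zero =>
    intro R _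
    refine (DecP.eqZ (P := P) hT).congr fun a b x _ => ?_
    constructor
    · intro h
      exact ⟨fun i => i.elim0, by rw [h]; simp [Ops.tup, Ops.enc], fun i => i.elim0⟩
    · rintro ⟨r, h, -⟩
      rw [h]
      simp [Ops.tup, Ops.enc]
  | succ K ih =>
    intro R hR
    refine ((hR 0).node hd G hT (ih (fun i => R i.succ) fun i => hR i.succ)).congr
      fun a b x _ => ?_
    constructor
    · rintro ⟨y, z, h, hy, r, rfl, hr⟩
      refine ⟨Fin.cons y r, ?_, ?_⟩
      · rw [h]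
        unfold Ops.tup
        rw [List.ofFn_succ, Fin.cons_zero]
        simp only [Fin.cons_succ]
        rfl
      · intro i
        refine Fin.cases ?_ (fun i => ?_) i
        · exact hy
        · exact hr i
    · rintro ⟨r, h, hr⟩
      refine ⟨r 0, (ops P a b).tup fun i => r i.succ, ?_, hr 0, fun i => r i.succ, rfl,
        fun i => hr i.succ⟩
      rw [h]
      unfold Ops.tup
      rw [List.ofFn_succ]
      rfl

theorem DecP.lhs {K : ℕ} (z : Fin K → Bool) :
    DecP d fun a b x => ∃ v : Fin K → BB d, x = (ops P a b).tup ((ops P a b).lhs z v) := by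
  refine (DecP.tup hd G hT K (fun i a b x => if z i then x = (ops P a b).Z else
    ∃ y, x = (ops P a b).nd (ops P a b).O y) ?_).congr fun a b x _ => ?_
  · intro i
    by_cases h : z i = true
    · exact (DecP.eqZ (P := P) hT).congr fun a b x _ => by simp [h]
    · exact (DecP.suc hd G hT).congr fun a b x _ => by simp [h]
  · constructor
    · rintro ⟨r, h, hr⟩
      have h2 : ∀ i, ∃ v, r i = if z i then (ops P a b).Z else (ops P a b).nd (ops P a b).O v := by
        intro i
        have h3 := hr i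
        by_cases hz : z i = true
        · simp only [hz, if_true] at h3 ⊢
          exact ⟨a, h3⟩
        · simp only [hz] at h3 ⊢
          exact h3
      choose v hv using h2
      refine ⟨v, ?_⟩
      rw [h]
      congr 1
      funext i
      exact hv i
    · rintro ⟨v, h⟩
      refine ⟨_, h, fun i => ?_⟩
      by_cases hz : z i = true
      · simp [hz, Ops.lhs]
      · simp only [hz, Ops.lhs]
        exact ⟨v i, rfl⟩

theorem DecP.dom (T : RM) (p1 p2 : Prop) :
    DecP d fun a b x => DomD (ops P a b) T p1 p2 x := by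
  have h1 := (DecP.const hT p1).and (DecP.c1 hd G hT)
  have h2 := (DecP.const hT p2).and (DecP.c2 hd G hT)
  have h3 : DecP d fun a b x => ∃ q : Fin T.nQ, ∃ z : Fin T.K → Bool, T.halt q = false ∧
    ∃ t s v, x = (ops P a b).st t ((ops P a b).nd (ops P a b).O s)
      ((ops P a b).sc T q ((ops P a b).lhs z v)) := by
    refine DecP.exFin hT fun q => DecP.exFin hT fun z => (DecP.const hT _).and ?_
    refine (DecP.st hd G hT (DecP.suc hd G hT)
      ((DecP.num hd G hT q).node hd G hT (DecP.lhs hd G hT z))).congr fun a b x _ => ?_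
    constructor
    · rintro ⟨t, _, _, h, ⟨s, rfl⟩, _, _, rfl, rfl, v, rfl⟩
      exact ⟨t, s, v, h⟩
    · rintro ⟨t, s, v, h⟩
      exact ⟨t, _, _, h, ⟨s, rfl⟩, _, _, rfl, rfl, v, rfl⟩
  have h4 : DecP d fun a b x => ∃ t y, x = (ops P a b).st t (ops P a b).Z y := by
    refine (DecP.st hd G hT (DecP.eqZ (P := P) hT) (DecP.tt hT)).congr fun a b x _ => ?_
    constructor
    · rintro ⟨t, _, y, h, rfl, -⟩
      exact ⟨t, y, h⟩
    · rintro ⟨t, y, h⟩
      exact ⟨t, _, y, h, rfl, trivial⟩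
  exact h1.or (h2.or (h3.or h4))

theorem DecP.kil (T : RM) : DecP d fun a b x => KilD (ops P a b) T x := by
  refine DecP.exFin hT fun q => (DecP.const hT _).and ?_
  refine (DecP.st hd G hT (DecP.suc hd G hT)
      ((DecP.num hd G hT q).node hd G hT (DecP.tt hT))).congr fun a b x _ => ?_
  constructor
  · rintro ⟨t, _, _, h, ⟨s, rfl⟩, _, r, rfl, rfl, -⟩
    exact ⟨t, s, r, h⟩
  · rintro ⟨t, s, r, h⟩
    exact ⟨t, _, _, h, ⟨s, rfl⟩, _, r, rfl, rfl, trivial⟩

/-- stuck data are decidable (only the truth values of the side conditions matter) -/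
theorem DecP.stuck (T : RM) (p1 p2 : Prop) :
    DecP d fun a b x => (ops P a b).Stuck T p1 (fun _ => p2) x := by
  refine (((DecP.dom hd G hT T p1 p2).not hT).and ((DecP.kil hd G hT T).not hT)).congr
    fun a b x _ => ?_
  rw [stuck_iff]
  have : (∃ _ : BB d, p2) ↔ p2 := ⟨fun ⟨_, h⟩ => h, fun h => ⟨a, h⟩⟩
  rw [this]

theorem DecP.n1 : DecP d fun a b x => ∀ y z, x ≠ (ops P a b).nd y z :=
  ((DecP.isNode hd G hT).not hT).congr fun a b x _ => by push Not; rfl

theorem DecP.n2 (T : RM) : DecP d fun a b x => ∃ N D, x = (ops P a b).nd N D ∧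
    ¬ (ops P a b).IsZip N ∧ (ops P a b).Stuck T False (fun _ => False) D :=
  ((DecP.isZip hd G hT).not hT).node hd G hT (DecP.stuck hd G hT T False False)

end patterns

theorem stuck_congr {M : Type} (A : Ops M) (T : RM) {p1 p1' : Prop} {a2 a2' : M → Prop} (D : M)
    (h1 : p1 ↔ p1') (h2 : (∃ a, a2 a) ↔ ∃ a, a2' a) :
    A.Stuck T p1 a2 D ↔ A.Stuck T p1' a2' D := by
  rw [stuck_iff, stuck_iff, h1, h2]

end Pool.Agent.helper46.PV
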