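import Pool.Agent.helper46.PV.G3
/-! PV project (MP_c0bc55_al, S02951), block W: the data of normal forms are decidable. -/
set_option autoImplicit false
namespace Pool.Agent.helper46.PV
open Pool.Agent.helper50.BW (W Fd Triv)
open Pool.Agent.helper4.PV (BB wl Ltr Par Wt Nd Geo)
open Pool.Agent.helper47.PV
open Pool.Agent.helper24.PV

variable {d : ℕ} {P : Par} {T : RM}

section proj
open Primrec

theorem prim_kind : Primrec fun t : Dt => t.kind := fst
theorem prim_a : Primrec fun t : Dt => t.a := fst.comp (fst.comp snd)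
theorem prim_b : Primrec fun t : Dt => t.b := snd.comp (fst.comp snd)
theorem prim_L0 : Primrec fun t : Dt => t.L0 := fst.comp (fst.comp (snd.comp snd))
theorem prim_a0 : Primrec fun t : Dt => t.a0 := snd.comp (fst.comp (snd.comp snd))
theorem prim_R0 : Primrec fun t : Dt => t.R0 := fst.comp (fst.comp (snd.comp (snd.comp snd)))
theorem prim_b0 : Primrec fun t : Dt => t.b0 := snd.comp (fst.comp (snd.comp (snd.comp snd)))
theorem prim_l1 : Primrec fun t : Dt => t.l1 :=
  fst.comp (fst.comp (snd.comp (snd.comp (snd.comp snd))))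
theorem prim_l2 : Primrec fun t : Dt => t.l2 :=
  snd.comp (fst.comp (snd.comp (snd.comp (snd.comp snd))))
theorem prim_D : Primrec fun t : Dt => t.D :=
  snd.comp (snd.comp (snd.comp (snd.comp snd)))
theorem prim_l12 : Primrec fun t : Dt => t.l1 ++ t.l2 := list_append.comp prim_l1 prim_l2

end proj

/-- some power is a test word -/
theorem prim_isWt (hd : 0 < d) (G : Geo d P) (hT : PrimrecPred fun w : W => Triv d w) :
    PrimrecPred fun u : W => IsWt P d (wl d u) := by
  obtain ⟨D, hD1, hD2, hD3⟩ := exists_decW G hT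
  have hR : PrimrecRel fun (u : W) (k : ℕ) => (D (npw u k)).isSome = true :=
    Primrec.eq.comp (Primrec.option_isSome.comp (hD1.comp
      (prim_npw.comp Primrec.fst Primrec.snd))) (Primrec.const true)
  refine (primrecPred_exists_mem hR (f := fun _ => List.range d) (Primrec.const _)).of_eq
    fun u => ?_
  constructor
  · rintro ⟨k, -, hk⟩
    obtain ⟨⟨a, y, z⟩, ht⟩ := Option.isSome_iff_exists.1 hk
    obtain ⟨h1, h2, -⟩ := hD2 _ _ _ _ ht
    exact ⟨k, _, _, _, h1, by rw [← wl_npw]; exact h2⟩
  · rintro ⟨k, a, y, z, h1, h2⟩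
    refine ⟨k % d, List.mem_range.2 (Nat.mod_lt _ hd), ?_⟩
    rw [Option.isSome_iff_ne_none]
    intro h3
    refine hD3 _ h3 ⟨a, y, z, h1, ?_⟩
    rw [wl_npw, ← h2]
    conv_rhs => rw [← Nat.mod_add_div k d, pow_add, pow_mul, pow_d, one_pow, mul_one]

/-- distinct names -/
theorem prim_nodup (hd : 0 < d) :
    PrimrecPred fun l : List W => (l.map fun y => abG (wl d y)).Nodup := by
  have h1 : PrimrecPred fun x : (List W × ℕ) × ℕ => x.1.2 = x.2 ∨
      ¬ (Abelianization.of (wl d (x.1.1.getD x.1.2 [])) =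
        Abelianization.of (wl d (x.1.1.getD x.2 []))) := by
    refine PrimrecPred.or (Primrec.eq.comp (Primrec.snd.comp Primrec.fst) Primrec.snd)
      (PrimrecPred.not ((prim_abEq hd).comp ((Primrec.list_getD []).comp
        (Primrec.fst.comp Primrec.fst) (Primrec.snd.comp Primrec.fst))
        ((Primrec.list_getD []).comp (Primrec.fst.comp Primrec.fst) Primrec.snd)))
  have h2 : PrimrecRel fun (l : List W) (i : ℕ) => ∀ j ∈ List.range l.length, i = j ∨
      ¬ (Abelianization.of (wl d (l.getD i [])) = Abelianization.of (wl d (l.getD j []))) :=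
    primrecPred_forall_mem (R := fun (x : List W × ℕ) (j : ℕ) => x.2 = j ∨
      ¬ (Abelianization.of (wl d (x.1.getD x.2 [])) = Abelianization.of (wl d (x.1.getD j []))))
      h1 (Primrec.list_range.comp (Primrec.list_length.comp Primrec.fst))
  refine (primrecPred_forall_mem h2 (f := fun l => List.range l.length)
    (Primrec.list_range.comp Primrec.list_length)).of_eq fun l => ?_
  have key : ∀ i (hi : i < l.length), l.getD i [] = l[i] := fun i hi => by
    rw [List.getD_eq_getElem?_getD, List.getElem?_eq_getElem hi, Option.getD_some]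
  rw [List.nodup_iff_injective_get]
  constructor
  · intro h i j hij
    have hi : (i : ℕ) < l.length := by simpa using i.2
    have hj : (j : ℕ) < l.length := by simpa using j.2
    rcases h i (List.mem_range.2 hi) j (List.mem_range.2 hj) with h3 | h3
    · exact Fin.ext h3
    · exfalso
      apply h3
      rw [key _ hi, key _ hj]
      rw [List.get_eq_getElem, List.get_eq_getElem, List.getElem_map, List.getElem_map] at hij
      exact hij
  · intro h i hi j hj
    rw [List.mem_range] at hi hj
    by_cases hij : i = j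
    · exact Or.inl hij
    · right
      intro h3
      apply hij
      have h4 := @h ⟨i, by simpa using hi⟩ ⟨j, by simpa using hj⟩ (by
        rw [key _ hi, key _ hj] at h3
        simpa only [abG, List.get_eq_getElem, List.getElem_map] using h3)
      simpa using h4

theorem prim_mem_finset (adv : Finset ℕ) : PrimrecPred fun n : ℕ => n ∈ adv := by
  refine (primrecPred_exists_mem (R := fun (n m : ℕ) => n = m) Primrec.eq
    (f := fun _ => adv.toList) (Primrec.const _)).of_eq fun n => ?_
  simp

/-- the data of normal forms are decidable -/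
theorem nrmD_prim (G : Geo d P) (hd : d.Prime) (hT : PrimrecPred fun w : W => Triv d w)
    (adv : Finset ℕ) : PrimrecPred (NrmD P T d adv) := by
  have hk : ∀ i : ℕ, PrimrecPred fun t : Dt => t.kind = i := fun i =>
    Primrec.eq.comp prim_kind (Primrec.const i)
  have hab : PrimrecPred fun t : Dt => ¬ Commute (wl d t.a) (wl d t.b) :=
    PrimrecPred.not ((prim_comm hT).comp prim_a prim_b)
  have hcomp : ∀ {R : BB d → BB d → BB d → Prop} (_ : DecP d R) {f : Dt → W} (_ : Primrec f),
      PrimrecPred fun t : Dt => ¬ Commute (wl d t.a) (wl d t.b) ∧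
        R (wl d t.a) (wl d t.b) (wl d (f t)) := fun hR _ hf =>
    PrimrecPred.comp hR (Primrec.pair prim_a (Primrec.pair prim_b hf))
  have h0 : PrimrecPred fun t : Dt => t.kind = 0 ∧ ¬ Triv d t.a ∧ ¬ IsWt P d (wl d t.a) :=
    (hk 0).and ((PrimrecPred.not (hT.comp prim_a)).and
      (PrimrecPred.not ((prim_isWt hd.pos G hT).comp prim_a)))
  have h1 := (hk 1).and (hcomp (DecP.n1 hd G hT) prim_D)
  have h2 := (hk 2).and ((hcomp ((DecP.isZip hd G hT).not hT) prim_L0).and
    (hcomp (DecP.stuck hd G hT T False False) prim_D))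
  -- the side conditions
  have eZ : ∀ {f : Dt → W} (_ : Primrec f), PrimrecPred fun t : Dt =>
      wl d (f t) = wl d t.b := fun hf => (prim_wlEq hT).comp hf prim_b
  have hs : PrimrecPred fun t : Dt => ¬ Commute (wl d t.a) (wl d t.b) ∧
      (ops P (wl d t.a) (wl d t.b)).Stuck T (wl d t.a0 = (ops P (wl d t.a) (wl d t.b)).Z)
        (fun a => wl d t.b0 = (ops P (wl d t.a) (wl d t.b)).Z ∧
          a = (ops P (wl d t.a) (wl d t.b)).marks (t.l1 ++ t.l2).length (wl d t.a0)) (wl d t.D) := by
    have s1 := ((eZ prim_a0).and (eZ prim_b0)).and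
      (hcomp (DecP.stuck hd G hT T True True) prim_D)
    have s2 := ((eZ prim_a0).and (PrimrecPred.not (eZ prim_b0))).and
      (hcomp (DecP.stuck hd G hT T True False) prim_D)
    have s3 := ((PrimrecPred.not (eZ prim_a0)).and (eZ prim_b0)).and
      (hcomp (DecP.stuck hd G hT T False True) prim_D)
    have s4 := ((PrimrecPred.not (eZ prim_a0)).and (PrimrecPred.not (eZ prim_b0))).and
      (hcomp (DecP.stuck hd G hT T False False) prim_D)
    refine (((s1.or s2).or s3).or s4).of_eq fun t => ?_
    have key : ∀ e1 e2 : Prop, ((wl d t.a0 = wl d t.b) ↔ e1) → ((wl d t.b0 = wl d t.b) ↔ e2) →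
      ((ops P (wl d t.a) (wl d t.b)).Stuck T (wl d t.a0 = (ops P (wl d t.a) (wl d t.b)).Z)
        (fun a => wl d t.b0 = (ops P (wl d t.a) (wl d t.b)).Z ∧
          a = (ops P (wl d t.a) (wl d t.b)).marks (t.l1 ++ t.l2).length (wl d t.a0)) (wl d t.D) ↔
        (ops P (wl d t.a) (wl d t.b)).Stuck T e1 (fun _ => e2) (wl d t.D)) := by
      intro e1 e2 h1 h2
      apply stuck_congr
      · exact h1
      · constructor
        · rintro ⟨a, h3, -⟩
          exact ⟨a, h2.1 h3⟩
        · rintro ⟨_, h3⟩
          exact ⟨_, h2.2 h3, rfl⟩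
    by_cases c1 : wl d t.a0 = wl d t.b <;> by_cases c2 : wl d t.b0 = wl d t.b
    · rw [key True True (by simp [c1]) (by simp [c2])]
      simp only [c1, c2, not_true_eq_false, and_true, and_false, true_and, false_and,
        or_false]
    · rw [key True False (by simp [c1]) (by simp [c2])]
      simp only [c1, c2, not_true_eq_false, not_false_eq_true, and_true, and_false, true_and,
        false_and, or_false, false_or]
    · rw [key False True (by simp [c1]) (by simp [c2])]
      simp only [c1, c2, not_true_eq_false, not_false_eq_true, and_true, and_false, true_and,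
        false_and, or_false, false_or]
    · rw [key False False (by simp [c1]) (by simp [c2])]
      simp only [c1, c2, not_false_eq_true, and_true, true_and,
        false_and, false_or]
  have hc1 : DecP d fun a b x => x = (ops P a b).c1 (ops P a b).Z := by
    refine ((DecP.num hd G hT 0).node hd G hT (DecP.eqZ (P := P) hT)).congr fun a b x _ => ?_
    constructor
    · rintro ⟨_, _, h, rfl, rfl⟩
      exact h
    · intro h
      exact ⟨_, _, h, rfl, rfl⟩
  have hadv : PrimrecPred fun t : Dt => (t.l1 ++ t.l2).length ∈ adv :=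
    (prim_mem_finset adv).comp (Primrec.list_length.comp prim_l12)
  have hpop : ∀ {f g : Dt → W} (_ : Primrec f) (_ : Primrec g), PrimrecPred fun t : Dt =>
      ¬ Commute (wl d t.a) (wl d t.b) ∧
        ¬ (ops P (wl d t.a) (wl d t.b)).Pop (wl d (f t)) (wl d (g t)) := by
    intro f g hf hg
    refine (hab.and (PrimrecPred.not ((hcomp (DecP.isNode hd G hT) hf).and
      (hcomp (DecP.suc hd G hT) hg)))).of_eq fun t => ?_
    constructor
    · rintro ⟨h1, h2⟩
      exact ⟨h1, fun h3 => h2 ⟨⟨h1, h3.1⟩, ⟨h1, h3.2⟩⟩⟩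
    · rintro ⟨h1, h2⟩
      exact ⟨h1, fun h3 => h2 ⟨h3.1.2, h3.2.2⟩⟩
  have hnd : PrimrecPred fun t : Dt => ((t.l1 ++ t.l2).map fun y => abG (wl d y)).Nodup :=
    (prim_nodup hd.pos).comp prim_l12
  have h3 := (hk 3).and ((hpop prim_L0 prim_a0).and ((hpop prim_R0 prim_b0).and
    (hnd.and (hs.or ((eZ prim_a0).and ((eZ prim_b0).and ((hcomp hc1 prim_D).and hadv)))))))
  refine (h0.or (h1.or (h2.or h3))).of_eq fun t => ?_
  unfold NrmD
  dsimp only
  refine or_congr Iff.rfl (or_congr Iff.rfl (or_congr ?_ ?_))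
  · constructor
    · rintro ⟨k, ⟨c, p1⟩, ⟨-, p2⟩⟩
      exact ⟨k, c, p1, p2⟩
    · rintro ⟨k, c, p1, p2⟩
      exact ⟨k, ⟨c, p1⟩, ⟨c, p2⟩⟩
  · have hZ : (ops P (wl d t.a) (wl d t.b)).Z = wl d t.b := rfl
    constructor
    · rintro ⟨k, ⟨c, p1⟩, ⟨-, p2⟩, n, h⟩
      refine ⟨k, c, p1, p2, n, ?_⟩
      rcases h with ⟨-, h⟩ | ⟨e1, e2, ⟨-, e3⟩, e4⟩
      · exact Or.inl h
      · exact Or.inr ⟨e1, e2, e3, e4⟩
    · rintro ⟨k, c, p1, p2, n, h⟩
      refine ⟨k, ⟨c, p1⟩, ⟨c, p2⟩, n, ?_⟩
      rcases h with h | ⟨e1, e2, e3, e4⟩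
      · exact Or.inl ⟨c, h⟩
      · exact Or.inr ⟨e1, e2, ⟨c, e3⟩, e4⟩

end Pool.Agent.helper46.PV
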