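import Pool.Agent.helper46.PV.W1
import Pool.Agent.helper24.PV.G6
/-! PV project (MP_c0bc55_al, S02951), block W: the data describe exactly the normal forms. -/
set_option autoImplicit false
namespace Pool.Agent.helper46.PV
open Pool.Agent.helper50.BW (W Fd Triv)
open Pool.Agent.helper4.PV (BB wl Ltr Par Wt Nd Geo)
open Pool.Agent.helper47.PV
open Pool.Agent.helper24.PV

variable {d : ℕ} {P : Par} {T : RM}

/-- `wl d` is a homomorphism of operations -/
theorem hom_wl (α β : W) : Ops.Hom (opsW P α β) (ops P (wl d α) (wl d β)) (wl d) where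
  nd := fun x y => by
    show wl d (wWt P α (wWt P α β x) y) = Wt P (wl d α) (Wt P (wl d α) (wl d β) (wl d x)) (wl d y)
    rw [wl_wWt, wl_wWt]
  Z := rfl
  O := rfl

/-- the word of the zipper -/
theorem wl_N (t : Dt) : wl d (t.N P) =
    (ops P (wl d t.a) (wl d t.b)).zip
      ((ops P (wl d t.a) (wl d t.b)).enc (t.l1.map (wl d)) (wl d t.L0))
      ((ops P (wl d t.a) (wl d t.b)).marks (t.l1.map (wl d)).length (wl d t.a0))
      ((ops P (wl d t.a) (wl d t.b)).enc (t.l2.map (wl d)) (wl d t.R0))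
      ((ops P (wl d t.a) (wl d t.b)).marks (t.l2.map (wl d)).length (wl d t.b0)) := by
  unfold Dt.N
  rw [(hom_wl t.a t.b).zip, (hom_wl t.a t.b).enc, (hom_wl t.a t.b).enc, (hom_wl t.a t.b).marks,
    (hom_wl t.a t.b).marks, List.length_map, List.length_map]

theorem wl_x0 {t : Dt} (h : t.kind = 0) : wl d (t.x P) = wl d t.a := by
  unfold Dt.x
  rw [if_pos h]

theorem wl_x1 {t : Dt} (h : t.kind = 1) :
    wl d (t.x P) = Wt P (wl d t.a) (wl d t.b) (wl d t.D) := by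
  unfold Dt.x Dt.Y
  rw [if_neg (by rw [h]; norm_num), if_pos h, wl_wWt]

theorem wl_x2 {t : Dt} (h : t.kind = 2) : wl d (t.x P) = Wt P (wl d t.a) (wl d t.b)
    ((ops P (wl d t.a) (wl d t.b)).nd (wl d t.L0) (wl d t.D)) := by
  unfold Dt.x Dt.Y
  rw [if_neg (by rw [h]; norm_num), if_neg (by rw [h]; norm_num), if_pos h, wl_wWt,
    (hom_wl t.a t.b).nd]

theorem wl_x3 {t : Dt} (h : t.kind = 3) : wl d (t.x P) = Wt P (wl d t.a) (wl d t.b)
    ((ops P (wl d t.a) (wl d t.b)).nd (wl d (t.N P)) (wl d t.D)) := by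
  unfold Dt.x Dt.Y
  rw [if_neg (by rw [h]; norm_num), if_neg (by rw [h]; norm_num), if_neg (by rw [h]; norm_num),
    wl_wWt, (hom_wl t.a t.b).nd]

/-- the window of the data -/
def winD (d : ℕ) (t : Dt) : Win (BB d) (Abelianization (BB d)) :=
  ⟨wl d t.L0, wl d t.a0, wl d t.R0, wl d t.b0, ((t.l1 ++ t.l2).map fun y => abG (wl d y) : List _)⟩

theorem card_winD (t : Dt) : (winD d t).S.card = (t.l1 ++ t.l2).length := by
  simp [winD]

theorem hasWin_winD {t : Dt}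
    (h1 : ¬ (ops P (wl d t.a) (wl d t.b)).Pop (wl d t.L0) (wl d t.a0))
    (h2 : ¬ (ops P (wl d t.a) (wl d t.b)).Pop (wl d t.R0) (wl d t.b0)) :
    (ops P (wl d t.a) (wl d t.b)).HasWin abG (wl d (t.N P)) (winD d t) := by
  refine ⟨t.l1.map (wl d), t.l2.map (wl d), wl_N t, h1, h2, ?_⟩
  rw [← List.map_append, List.map_map]
  rfl

/-- the data describe normal forms -/
theorem nrmD_sound {adv : Finset ℕ} (hadv : ∀ k ∈ adv, ¬ T.Halts k) {t : Dt}
    (ht : NrmD P T d adv t) : NF P T d (wl d (t.x P)) := by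
  rcases ht with ⟨hk, h1, h2⟩ | ⟨hk, h1, h2⟩ | ⟨hk, h1, h2, h3⟩ | ⟨hk, h1, h2, h3, h4, h5⟩
  · rw [wl_x0 hk]
    exact NF.iso _ (fun h => h1 ((wl_eq_one_iff _).1 h)) h2
  · rw [wl_x1 hk]
    exact NF.cfg _ _ _ h1 (Ops.Nrm.n1 _ h2)
  · rw [wl_x2 hk]
    exact NF.cfg _ _ _ h1 (Ops.Nrm.n2 _ _ h2 h3)
  · rw [wl_x3 hk]
    refine NF.cfg _ _ _ h1 (Ops.Nrm.n3 _ _ (winD d t) (hasWin_winD h2 h3) ?_ ?_)
    · exact h4
    · rw [card_winD]
      rcases h5 with h5 | ⟨e1, e2, e3, e4⟩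
      · exact Or.inl h5
      · exact Or.inr ⟨e1, e2, e3, hadv _ e4⟩

/-- isolated elements are described by data -/
theorem nrmD_complete_iso {adv : Finset ℕ} {x : BB d} (hx : x ≠ 1) (hx' : ¬ IsWt P d x) :
    ∃ t, NrmD P T d adv t ∧ wl d (t.x P) = x := by
  obtain ⟨w, rfl⟩ := wl_surj x
  refine ⟨(0, (w, []), ([], []), ([], []), ([], []), []), Or.inl ⟨rfl, ?_, hx'⟩, wl_x0 rfl⟩
  intro h
  exact hx ((wl_eq_one_iff _).2 h)

theorem exists_map_wl (l : List (BB d)) : ∃ w : List W, w.map (wl d) = l := by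
  induction l with
  | nil => exact ⟨[], rfl⟩
  | cons x l ih =>
    obtain ⟨w, hw⟩ := ih
    obtain ⟨u, hu⟩ := wl_surj x
    exact ⟨u :: w, by rw [List.map_cons, hu, hw]⟩

theorem enc_mem (G : Geo d P) (hd : 2 ≤ d) {n : ℕ} {a b : BB d} (hab : ¬ Commute a b)
    (ha : a ∈ Bn n d) (hb : b ∈ Bn n d) (l : List (BB d)) (e : BB d)
    (h : (ops P a b).enc l e ∈ Bn n d) : ∀ y ∈ l, y ∈ Bn n d := by
  induction l with
  | nil => intro y hy; simp at hy
  | cons x l ih =>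
    obtain ⟨h1, h2⟩ := (nd_mem_iff G hd hab ha hb).1 h
    intro y hy
    rcases List.mem_cons.1 hy with rfl | hy
    · exact h1
    · exact ih h2 y hy

/-- every normal form of rank `n` is described by data -/
theorem nrmD_complete (G : Geo d P) (hd : d.Prime) {n : ℕ} {adv : Finset ℕ}
    (hadv : ∀ k ≤ d ^ n, ¬ T.Halts k → k ∈ adv) {a b Y : BB d} (ha : a ∈ Bn n d)
    (hb : b ∈ Bn n d) (hY : Y ∈ Bn n d) (hab : ¬ Commute a b)
    (hN : (ops P a b).Nrm T abG Y) : ∃ t, NrmD P T d adv t ∧ wl d (t.x P) = Wt P a b Y := by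
  obtain ⟨α, rfl⟩ := wl_surj a
  obtain ⟨β, rfl⟩ := wl_surj b
  cases hN with
  | n1 _ h =>
    obtain ⟨u, rfl⟩ := wl_surj Y
    exact ⟨(1, (α, β), ([], []), ([], []), ([], []), u), Or.inr (Or.inl ⟨rfl, hab, h⟩), wl_x1 rfl⟩
  | n2 N D h hD =>
    obtain ⟨u, rfl⟩ := wl_surj N
    obtain ⟨v, rfl⟩ := wl_surj D
    exact ⟨(2, (α, β), (u, []), ([], []), ([], []), v),
      Or.inr (Or.inr (Or.inl ⟨rfl, hab, h, hD⟩)), wl_x2 rfl⟩
  | n3 N D Wn hW hS hD =>
    obtain ⟨L0, a0, R0, b0, S⟩ := Wn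
    obtain ⟨l1, l2, hN, hp1, hp2, hS'⟩ := hW
    dsimp only at hN hp1 hp2 hS' hS hD
    obtain ⟨w1, rfl⟩ := exists_map_wl l1
    obtain ⟨w2, rfl⟩ := exists_map_wl l2
    obtain ⟨u1, rfl⟩ := wl_surj L0
    obtain ⟨u2, rfl⟩ := wl_surj a0
    obtain ⟨u3, rfl⟩ := wl_surj R0
    obtain ⟨u4, rfl⟩ := wl_surj b0
    obtain ⟨v, rfl⟩ := wl_surj D
    have hS2 : S = ((w1 ++ w2).map fun y => abG (wl d y) : List _) := by
      rw [hS', ← List.map_append, List.map_map]
      rfl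
    have hcard : S.card = (w1 ++ w2).length := by rw [hS2]; simp
    have hNw : wl d (Dt.N P (3, (α, β), (u1, u2), (u3, u4), (w1, w2), v)) = N := by
      rw [hN]
      exact wl_N _
    refine ⟨(3, (α, β), (u1, u2), (u3, u4), (w1, w2), v),
      Or.inr (Or.inr (Or.inr ⟨rfl, hab, hp1, hp2, ?_, ?_⟩)), ?_⟩
    · rw [hS2] at hS
      exact hS
    · rcases hD with hD | ⟨e1, e2, e3, e4⟩
      · left
        rw [hcard] at hD
        exact hD
      · right
        refine ⟨e1, e2, e3, ?_⟩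
        rw [hcard] at e4
        refine hadv _ ?_ e4
        -- the names have rank n
        have hd2 := hd.two_le
        obtain ⟨hNm, -⟩ := (nd_mem_iff G hd2 hab ha hb).1 hY
        rw [hN] at hNm
        obtain ⟨g1, g2⟩ := (nd_mem_iff G hd2 hab ha hb).1 hNm
        obtain ⟨g3, -⟩ := (nd_mem_iff G hd2 hab ha hb).1 g1
        obtain ⟨g4, -⟩ := (nd_mem_iff G hd2 hab ha hb).1 g2
        have hm : ∀ y ∈ w1.map (wl d) ++ w2.map (wl d), y ∈ Bn n d := by
          intro y hy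
          rcases List.mem_append.1 hy with hy | hy
          · exact enc_mem G hd2 hab ha hb _ _ g3 y hy
          · exact enc_mem G hd2 hab ha hb _ _ g4 y hy
        have hle := names_le hd.pos hm (by
          have : (S : Multiset _).Nodup := hS
          rw [hS'] at this
          exact this)
        rw [← List.map_append, List.length_map] at hle
        exact hle
    · rw [wl_x3 rfl, hNw]
      rfl

end Pool.Agent.helper46.PV
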